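import Pool.Agent.H45.UZ.TarA

/-! # QI1: isomorphisms: maps, inverses, restrictions -/

set_option linter.unusedVariables false

open Ordinal Order Set
open scoped ZFSet

namespace SE.UZ

open SF

namespace QI1x

theorem mv_empty (π : V) : mv π ∅ = ∅ := by
  unfold mv
  ext z
  rw [mem_imS]
  constructor
  · rintro ⟨x, hx, -⟩
    exact absurd hx (ZFSet.notMem_empty x)
  · intro h
    exact absurd h (ZFSet.notMem_empty z)

theorem rst_empty (s : V) : rst s ∅ = ∅ := by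
  unfold rst
  ext z
  rw [ZFSet.mem_sep]
  constructor
  · rintro ⟨h, -⟩
    exact h
  · intro h
    exact absurd h (ZFSet.notMem_empty z)

theorem mem_rst {s p z : V} : z ∈ rst s p ↔ z ∈ p ∧ fst z ∈ s := by
  unfold rst
  rw [ZFSet.mem_sep]

theorem ff_of_pos {L s q : V} (h : q ∈ Pos L s) : FF q ∧ dm q ⊆ s := by
  unfold Pos Fs at h
  rw [ZFSet.mem_sep, ZFSet.mem_sep, ZFSet.mem_powerset] at h
  obtain ⟨⟨h1, h2⟩, h3, -⟩ := h
  refine ⟨⟨h2, h3, ?_⟩, ?_⟩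
  · intro z hz
    have h4 := h1 hz
    rw [ZFSet.mem_prod] at h4
    obtain ⟨a, -, b, -, rfl⟩ := h4
    exact ⟨a, b, rfl⟩
  · intro x hx
    rw [mem_dm] at hx
    obtain ⟨y, hy⟩ := hx
    have h4 := h1 hy
    rw [ZFSet.pair_mem_prod] at h4
    exact h4.1

theorem mem_fun {π ρ ρ' w : V} (h : ZFSet.IsFunc ρ ρ' π) :
    w ∈ π ↔ ∃ i ∈ ρ, w = ZFSet.pair i (app π i) := by
  constructor
  · intro hw
    have h1 := h.1 hw
    rw [ZFSet.mem_prod] at h1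
    obtain ⟨a, ha, b, hb, rfl⟩ := h1
    refine ⟨a, ha, ?_⟩
    rw [app_eq (svl_of_isFunc h) hw]
  · rintro ⟨i, hi, rfl⟩
    exact pair_app_mem h hi

theorem fun_mem_H (hBR : T_BR) {D : Cx} (hD : D.Ok) {π ρ ρ' : V} (hn : D.N π) (hρ : ρ ∈ D.H)
    (hρ' : ρ' ∈ D.H) (hf : ZFSet.IsFunc ρ ρ' π) : π ∈ D.H := by
  have kH := hD.zfH
  have hdm : dm π = ρ := by
    ext x
    rw [mem_dm]
    constructor
    · rintro ⟨y, hy⟩
      have h1 := hf.1 hy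
      rw [ZFSet.pair_mem_prod] at h1
      exact h1.1
    · intro hx
      exact ⟨_, pair_app_mem hf hx⟩
  have hrg : rg π ⊆ D.H := by
    intro y hy
    rw [mem_rg] at hy
    obtain ⟨x, hx⟩ := hy
    have h1 := hf.1 hx
    rw [ZFSet.pair_mem_prod] at h1
    exact kH.trans ρ' hρ' y h1.2
  obtain ⟨-, h2⟩ := (hBR D hD).2.1 π ρ hn (svl_of_isFunc hf) hdm hρ hrg
  have h3 : π ∩ ZFSet.prod ρ (rg π) = π := by
    ext z
    rw [ZFSet.mem_inter]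
    constructor
    · exact fun h => h.1
    · intro h
      refine ⟨h, ?_⟩
      obtain ⟨i, hi, rfl⟩ := (mem_fun hf).1 h
      rw [ZFSet.pair_mem_prod]
      exact ⟨hi, mem_rg.2 ⟨i, h⟩⟩
  rwa [h3] at h2

theorem isl_inv (hTBd : T_TBd) (hTBe : T_TBe) (hTCa : T_TCa) {D : Cx} (hD : D.Ok) {l : ℕ}
    {S : ℕ → Prop} {π ρ ρ' : V} (hS : Sl l S) (h : Isl D l S π ρ ρ') :
    Isl D l S (inv π) ρ' ρ := by
  obtain ⟨-, -, -, hsub, hb⟩ := hTBd π ρ ρ' h.i.i.fn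
  obtain ⟨him, hfi, hji, hii, hia, hai, -, -, himm⟩ := hb h.i.i.inj h.i.i.onto
  have hIN := (hTCa D hD π ρ ρ' ∅ h.i).1
  rw [mv_empty] at hIN
  have hZ := (hTBe D.L π ρ ρ' ∅ h.i.c h.i.c' h.i.i).2.2.2.1 h.z
  rw [mv_empty] at hZ
  refine ⟨hIN, hZ, h.c', h.c, ?_, ?_⟩
  · intro j hj e h3 hl
    have hi : app (inv π) j ∈ ρ := app_mem hfi hj
    have h4 := h.k _ hi e h3 hl
    rw [hai j hj] at h4
    exact h4.symm
  · intro j hj e hSe hk
    have hi : app (inv π) j ∈ ρ := app_mem hfi hj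
    have h4 := h.k _ hi e (hS e hSe).1 (le_of_lt (hS e hSe).2)
    rw [hai j hj] at h4
    obtain ⟨h5, h6, h7⟩ := h.v _ hi e hSe (h4.2 hk)
    rw [hai j hj] at h6 h7
    refine ⟨?_, ?_, h7.symm⟩
    · rw [h6]
      exact (hsub _ h5).1
    · rw [h6, (himm _ h5).1]

end QI1x

open QI1x

theorem pf_QI1 (hTBa : T_TBa) (hTBb : T_TBb) (hTBd : T_TBd) (hTBe : T_TBe) (hTCa : T_TCa)
    (hTCd : T_TCd) (hBD : T_BD) (hBR : T_BR) (hBA : T_BA) : T_QI1 := by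
  intro D hD l S π ρ ρ' hS h
  have kN : ZFm D.N := hD.zfc.toZFCm.toZFm
  have hfn : ZFSet.IsFunc ρ ρ' π := h.i.i.fn
  have hij : Ijo π ρ := h.i.i.inj
  obtain ⟨-, -, happ, hsub, hb⟩ := hTBd π ρ ρ' hfn
  obtain ⟨him, hfi, hji, hii, hia, hai, -, -, himm⟩ := hb hij h.i.i.onto
  have hinv := isl_inv hTBd hTBe hTCa hD hS h
  have hleE : ∀ s q, q ∈ D.P s → Le q ∅ := fun s q hq => (hBD.2.2.2.1 D.L s q hq).2
  obtain ⟨hTρ, hBA2, hBA3⟩ := hBA.2.2.2.2.2.2 D.L ρ h.i.c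
  obtain ⟨-, hBA2', -⟩ := hBA.2.2.2.2.2.2 D.L ρ' h.i.c'
  refine ⟨⟨hfn, hij, him, fun_mem_H hBR hD h.i.n h.i.h h.i.h' hfn, hii, ⟨?_, ?_⟩, hinv⟩, ?_, ?_,
    ?_, ?_⟩
  · intro i hi e hSe hk
    exact (h.v i hi e hSe hk).1
  · intro i hi e hSe hk
    exact (hinv.v i hi e hSe hk).1
  · intro i hi
    refine ⟨happ i hi, hia i hi, h.i.i.sup i hi, ?_⟩
    obtain ⟨hLi, hsi, -⟩ := hBA2 i hi
    obtain ⟨hLj, -⟩ := hBA2' _ (happ i hi)
    have hTi : Tr (lS i) := hLi.tr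
    obtain ⟨-, -, -, -, -, -, -, hres⟩ := hTBb D.L π ρ ρ' ∅ h.i.c h.i.c' h.i.i
    obtain ⟨hc1, hc2, -, hiso, -, hagr⟩ := hres (lS i) hsi hTi
    obtain ⟨-, -, -, -, -, honto, -⟩ := hTBb D.L _ _ _ _ hc1 hc2 hiso
    ext z
    unfold mvn
    rw [mem_imS]
    constructor
    · intro hz
      obtain ⟨q', hq', b, hb', rfl⟩ := hLj.z.sub z hz
      rw [h.i.i.sup i hi] at hq'
      obtain ⟨q, hq, hle, rfl⟩ := honto q' hq' (by
        rw [rst_empty, mv_empty]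
        exact hleE _ _ hq')
      obtain ⟨hff, hdq⟩ := ff_of_pos hq
      have hmv : mv (rst (lS i) π) q = mv π q := ((hTBa.2.2.2.1 (rst (lS i) π) π (lS i) hagr).2 q hff hdq)
      rw [hmv] at hz ⊢
      have h1 := (h.z i hi q hq (by rw [rst_empty]; exact hleE _ _ hq) b).2 hz
      refine ⟨_, h1, ?_⟩
      rw [fst_pair, snd_pair]
    · rintro ⟨w, hw, rfl⟩
      obtain ⟨q, hq, b, hb', rfl⟩ := hLi.z.sub w hw
      rw [fst_pair, snd_pair]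
      exact (h.z i hi q hq (by rw [rst_empty]; exact hleE _ _ hq) b).1 hw
  · intro j hj
    exact ⟨app_mem hfi hj, hai j hj⟩
  · intro l' S' hl hS'
    exact ⟨h.i, h.z, h.c, h.c', fun i hi e h3 hl' => h.k i hi e h3 (hl'.trans hl),
      fun i hi e he hk => h.v i hi e (hS' e he) hk⟩
  · intro s hs hsρ hTs hVs
    obtain ⟨hIs, hap, hZs, -, -⟩ := hTCd D hD π ρ ρ' ∅ h.i s hs hsρ hTs
    have hZs' := hZs h.z
    rw [rst_empty] at hIs hZs'
    have hims : im π s ⊆ ρ' := (hsub s hsρ).1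
    have hmem : ∀ i ∈ ρ, (app π i ∈ im π s ↔ i ∈ s) := (hTBa.2.2.1 π ρ hij s hsρ).2.1
    refine ⟨⟨hIs, hZs', ?_, ?_, ?_, ?_⟩, hap, hims, (himm s hsρ).1, ?_, ?_⟩
    · exact ⟨hIs.h, hIs.c, fun i hi => h.c.g i (hsρ hi)⟩
    · exact ⟨hIs.h', hIs.c', fun i hi => h.c'.g i (hims hi)⟩
    · intro i hi e h3 hl
      rw [hap i hi]
      exact h.k i (hsρ hi) e h3 hl
    · intro i hi e hSe hk
      obtain ⟨-, h2, h3⟩ := h.v i (hsρ hi) e hSe hk
      have hv := hVs i hi e hSe hk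
      refine ⟨hv, ?_, ?_⟩
      · rw [hap i hi, h2]
        exact ((hTBa.2.2.2.1 π (rst s π) (vw i) (fun k hk => (hap k (hv hk)).symm)).1)
      · rw [hap i hi]
        exact h3
    · ext z
      unfold inv
      rw [mem_imS, mem_rst, mem_imS]
      constructor
      · rintro ⟨w, hw, rfl⟩
        rw [mem_rst] at hw
        obtain ⟨i, hi, rfl⟩ := (mem_fun hfn).1 hw.1
        rw [fst_pair] at hw
        refine ⟨⟨_, hw.1, rfl⟩, ?_⟩
        rw [fst_pair, snd_pair]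
        exact (hmem i hi).2 hw.2
      · rintro ⟨⟨w, hw, rfl⟩, hz⟩
        obtain ⟨i, hi, rfl⟩ := (mem_fun hfn).1 hw
        rw [fst_pair, snd_pair] at hz
        refine ⟨_, mem_rst.2 ⟨hw, ?_⟩, rfl⟩
        rw [fst_pair]
        exact (hmem i hi).1 hz
    · intro hid
      refine ⟨?_, (hTBa.2.2.2.2.1 π s hid).1⟩
      ext z
      unfold idm
      rw [mem_rst, mem_resS]
      constructor
      · rintro ⟨hz, hzs⟩
        obtain ⟨i, hi, rfl⟩ := (mem_fun hfn).1 hz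
        rw [fst_pair] at hzs
        refine ⟨i, hzs, ?_⟩
        rw [hid i hzs]
      · rintro ⟨x, hx, rfl⟩
        rw [fst_pair]
        refine ⟨(mem_fun hfn).2 ⟨x, hsρ hx, ?_⟩, hx⟩
        rw [hid x hx]

end SE.UZ
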