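import Pool.Agent.H45.UZ.TarA

/-! # QRN: reals of restrictions -/

set_option linter.unusedVariables false

open Ordinal Order Set
open scoped ZFSet

namespace SE.UZ

open SF

namespace QRNx

theorem resS_app {x : V} (hx : Rl x) : resS om (fun n => app x n) = x := by
  ext w
  rw [mem_resS]
  constructor
  · rintro ⟨n, hn, rfl⟩
    exact pair_app_mem hx hn
  · intro hw
    have h1 := hx.1 hw
    rw [ZFSet.mem_prod] at h1
    obtain ⟨a, ha, b, hb, rfl⟩ := h1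
    refine ⟨a, ha, ?_⟩
    rw [app_eq (svl_of_isFunc hx) hw]

theorem fstPrl {x y : V} (hx : Rl x) :
    resS om (fun n => fst (app (prl x y) n)) = x := by
  rw [resS_congr (G := fun n => app x n), resS_app hx]
  intro n hn
  unfold prl
  rw [app_resS hn, fst_pair]

theorem sndPrl {x y : V} (hy : Rl y) :
    resS om (fun n => snd (app (prl x y) n)) = y := by
  rw [resS_congr (G := fun n => app y n), resS_app hy]
  intro n hn
  unfold prl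
  rw [app_resS hn, snd_pair]

theorem unprl {W : V → Prop} (k : ZFm W) {x y : V} (hx : Rl x) (hy : Rl y) (h : W (prl x y)) :
    W x ∧ W y := by
  have t1 : Tm ZFm (fun _ v => resS om (fun n => fst (app (v 0) n))) := by
    have := Tm.resS (f := fun _ _ => om) (g := fun _ v => fst (app (v 1) (v 0))) Tm.om
      (Tm.fst (Tm.app (Tm.var 1) (Tm.var 0)))
    exact this
  have t2 : Tm ZFm (fun _ v => resS om (fun n => snd (app (v 0) n))) := by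
    have := Tm.resS (f := fun _ _ => om) (g := fun _ v => snd (app (v 1) (v 0))) Tm.om
      (Tm.snd (Tm.app (Tm.var 1) (Tm.var 0)))
    exact this
  have a1 := t1.1 W k (fun _ => prl x y) fun _ => h
  have a2 := t2.1 W k (fun _ => prl x y) fun _ => h
  simp only [fstPrl hx, sndPrl hy] at a1 a2
  exact ⟨a1, a2⟩

end QRNx

open QRNx

theorem pf_QRN (hBA : T_BA) (hBJ : T_BJ) (hBK : T_BK) (hBL : T_BL) (hBO : T_BO) (hBP : T_BP)
    (hZY : T_ZY) (hAH : T_AH) (hAI : T_AI) : T_QRN := by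
  intro D hD ρ G s hρ hc hG hs hsρ hTs
  obtain ⟨-, -, -, -, hmain⟩ := hBJ D hD
  have kN : ZFm D.N := hD.zfc.toZFCm.toZFm
  obtain ⟨hTρ, hBA2, hBA3⟩ := hBA.2.2.2.2.2.2 D.L ρ hc
  have hcs : Cld D.L s := hBA3 s hsρ hTs
  obtain ⟨hGρ, hBL2⟩ := hBL D hD ρ G hρ hc hG
  obtain ⟨hGs, -, hWsub, -, -, -, hgg⟩ := hBL2 s hs hsρ hTs
  have hgss : gs (gs G s) s = gs G s := hgg s (fun _ h => h)
  have kW : ∀ s', D.N s' → s' ⊆ ρ → Tr s' → ZFm (D.W (gs G s')) := by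
    intro s' h1 h2 h3
    have hc' := hBA3 s' h2 h3
    obtain ⟨hG', -⟩ := hBL2 s' h1 h2 h3
    exact ((hmain s' h1 hc').2 _ hG').1.1.toZFCm.toZFm
  have kWs := kW s hs hsρ hTs
  obtain ⟨hK1, hK2⟩ := hBK D hD ρ G hρ hc hG
  obtain ⟨hK1s, hK2s⟩ := hBK D hD s (gs G s) hs hcs hGs
  -- closure
  have cPrl : ∀ x y, RR D s G x → RR D s G y → RR D s G (prl x y) := by
    intro x y hx hy
    refine ⟨?_, (hAH.1 x y hx.2 hy.2).1⟩
    exact hAI.2.2.1.1 (D.W (gs G s)) kWs (cons x fun _ => y) (by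
      intro i
      cases i with
      | zero => exact hx.1
      | succ i => exact hy.1)
  have cUn : ∀ x y, Rl x → Rl y → RR D s G (prl x y) → RR D s G x ∧ RR D s G y := by
    intro x y hx hy h
    obtain ⟨h1, h2⟩ := unprl kWs hx hy h.1
    exact ⟨⟨h1, hx⟩, ⟨h2, hy⟩⟩
  have cKc : ∀ e : ℕ, RR D s G (kc e) := by
    intro e
    refine ⟨?_, (hAH.2.2.2.1 e).1⟩
    have h0 : D.W (gs G s) ∅ := ZFm.mempty kWs
    exact (hAI.2.2.2.1 e).1 (D.W (gs G s)) kWs (fun _ => ∅) fun _ => h0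
  -- names
  have lab1 : ∀ i ∈ ρ, D.N (lS i) ∧ D.N (lZ i) ∧ Lab D.L i ∧ lS i ⊆ ρ := by
    intro i hi
    have hiN : D.N i := kN.trans ρ hρ i hi
    obtain ⟨hL, hsub, -⟩ := hBA2 i hi
    have h1 := hiN
    rw [hL.eq] at h1
    unfold lab at h1
    obtain ⟨-, h2⟩ := ZFm.of_pair kN h1
    obtain ⟨-, h3⟩ := ZFm.of_pair kN h2
    obtain ⟨h4, h5⟩ := ZFm.of_pair kN h3
    obtain ⟨-, h6⟩ := ZFm.of_pair kN h5
    obtain ⟨h7, -⟩ := ZFm.of_pair kN h6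
    exact ⟨h4, h7, hL, hsub⟩
  have rZ : ∀ i ∈ ρ, Rl (ev G (lZ i)) := by
    intro i hi
    obtain ⟨h1, h2, h3, h4⟩ := lab1 i hi
    exact (hK1 (lS i) (lZ i) h1 h4 h3.tr h2 h3.z).1
  have rC : ∀ i ∈ ρ, Rl (cg G i) := fun i hi => (hK2 i hi).1
  have r1 : ∀ x, Rl x → Rl (prl (kc 1) x) := fun x hx => (hAH.1 _ _ (hAH.2.2.2.1 1).1 hx).1
  have rP : ∀ i ∈ ρ, Rl (prm G i) := fun i hi => (hAH.1 _ _ (r1 _ (rZ i hi)) (rC i hi)).1
  -- values in the restriction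
  have eZ : ∀ i ∈ s, ev (gs G s) (lZ i) = ev G (lZ i) := by
    intro i hi
    obtain ⟨h1, h2, h3, h4⟩ := lab1 i (hsρ hi)
    exact (hK1 (lS i) (lZ i) h1 h4 h3.tr h2 h3.z).2.2.2.2.2 s (hTs i hi)
  have eC : ∀ i ∈ s, cg (gs G s) i = cg G i := fun i hi => (hK2 i (hsρ hi)).2.2.1 s hTs hi
  have sZ : ∀ i ∈ s, RR D s G (ev G (lZ i)) := by
    intro i hi
    obtain ⟨h1, h2, h3, h4⟩ := lab1 i (hsρ hi)
    refine ⟨?_, rZ i (hsρ hi)⟩
    rw [← eZ i hi]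
    exact (hK1s (lS i) (lZ i) h1 (hTs i hi) h3.tr h2 h3.z).2.1
  have sC : ∀ i ∈ s, RR D s G (cg G i) := by
    intro i hi
    refine ⟨?_, rC i (hsρ hi)⟩
    rw [← eC i hi]
    exact (hK2s i hi).2.1
  have nC : ∀ i ∈ ρ, RR D s G (cg G i) → i ∈ s := by
    intro i hi h
    by_contra hcon
    exact hBP D hD ρ G s i hρ hc hG hs hsρ hTs hi hcon h.1
  have nP : ∀ i ∈ ρ, RR D s G (prm G i) → i ∈ s := by
    intro i hi h
    exact nC i hi (cUn _ _ (r1 _ (rZ i hi)) (rC i hi) h).2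
  refine ⟨?_, ?_, ?_, ?_, cPrl, cUn, cKc, ?_, ?_, ?_, nC, nP, ?_, ?_, ?_⟩
  · intro x
    constructor
    · rintro ⟨⟨τ, hτ, rfl⟩, hx⟩
      obtain ⟨Y, hY, hN, hev⟩ := (hBO D hD s hs hcs).1 τ hτ
      refine ⟨Y, hY, hN, ?_⟩
      rw [← (hK1 s Y hs hsρ hTs hY hN).2.2.2.2.2 s (fun _ h => h)]
      exact (hev (gs G s) hGs).1 hx
    · rintro ⟨Y, hY, hN, rfl⟩
      obtain ⟨h1, -, -, -, -, h2⟩ := hK1 s Y hs hsρ hTs hY hN
      refine ⟨?_, h1⟩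
      rw [← h2 s (fun _ h => h)]
      exact (hK1s s Y hs (fun _ h => h) hTs hY hN).2.1
  · intro x
    unfold RR
    rw [hgss]
  · intro x hx
    refine ⟨?_, hx.2⟩
    rw [hGρ]
    exact hWsub x hx.1
  · intro x
    unfold RR
    rw [hGρ]
  · intro s' h1 h2 h3 h4 x hx
    obtain ⟨hG', -, -, -, -, -, hgg'⟩ := hBL2 s' h1 h3 h4
    have hc' := hBA3 s' h3 h4
    obtain ⟨-, hB'⟩ := hBL D hD s' (gs G s') h1 hc' hG'
    obtain ⟨-, -, hW', -⟩ := hB' s hs h2 hTs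
    refine ⟨hW' x ?_, hx.2⟩
    rw [hgg' s h2]
    exact hx.1
  · exact fun i hi => ⟨rZ i hi, rC i hi, rP i hi⟩
  · intro i hi
    exact ⟨sZ i hi, sC i hi, cPrl _ _ (cPrl _ _ (cKc 1) (sZ i hi)) (sC i hi)⟩
  · intro i hi h
    exact nP i hi (cUn _ _ (hAH.2.2.2.1 1).1 (rP i hi) h).2
  · intro i hi j hj h
    have h1 := (hAH.2.1 _ _ _ _ (r1 _ (rZ i hi)) (rC i hi) (r1 _ (rZ j hj)) (rC j hj) h).2
    exact (hZY D hD ρ G hρ hc hG).1 i hi j hj h1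
  · intro i hi
    refine ⟨?_, eZ i hi, eC i hi⟩
    unfold prm
    rw [eZ i hi, eC i hi]

end SE.UZ
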